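import Mathlib
import Pool.Graph.R_seed8.Results.MP_8e2405_al.KernelClosedNotFold

set_option autoImplicit false

/-! MP_8e2405_al: the counterexample inside the category of finitely generated modules over a
four-dimensional algebra, and a transfer principle along exact functors. -/

open CategoryTheory CategoryTheory.Limits

universe v u v' u'

namespace Pool.Agent.Results.MP_8e2405_al.FiniteLength

open Pool.Agent.Results.MP_8e2405_al.KernelClosedNotFold

section Transfer

variable {A : Type u} [Category.{v} A] [Abelian A] {B : Type u'} [Category.{v'} B] [Abelian B]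

/-- inverse images under exact functors are closed under extensions and `m`-kernels -/
theorem pull (F : A ⥤ B) [F.Additive] [PreservesFiniteLimits F] [PreservesFiniteColimits F]
    {m : ℕ} {X : ObjectProperty B} (hX : IsKEClosed m X) : IsKEClosed m (X.inverseImage F) := by
  refine ⟨⟨fun φ h => ?_⟩, fun S hS h1 h3 => ?_, fun Y d hd hex hY => ?_⟩
  · have := hX.iso
    exact ObjectProperty.prop_of_iso X (F.mapIso φ) h
  · exact hX.ext (S.map F) (hS.map_of_exact F) h1 h3
  · have hmono : Mono (F.map (d 0)) := inferInstance
    refine hX.ker (fun i => F.obj (Y i)) (fun i => F.map (d i)) hmono (fun i hi => ?_) hY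
    obtain ⟨w, hw⟩ := hex i hi
    exact ⟨by rw [← F.map_comp, w, F.map_zero], hw.map F⟩

/-- exactness is detected by faithful exact functors -/
theorem shortExact_of_map (F : A ⥤ B) [F.Additive] [PreservesFiniteLimits F]
    [PreservesFiniteColimits F] [F.Faithful] {S : ShortComplex A} (h : (S.map F).ShortExact) :
    S.ShortExact where
  exact := (S.exact_map_iff_of_faithful F).1 h.exact
  mono_f := F.mono_of_mono_map h.mono_f
  epi_g := F.epi_of_epi_map h.epi_g

/-- the obstruction -/
theorem not_fold {X : ObjectProperty A} {N P p b : A}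
    (h1 : ∃ S : ShortComplex A, S.ShortExact ∧ S.X₁ = N ∧ S.X₂ = P ∧ S.X₃ = p)
    (h2 : ∃ S : ShortComplex A, S.ShortExact ∧ S.X₁ = p ∧ S.X₂ = N ∧ S.X₃ = b)
    (h3 : ∃ S : ShortComplex A, S.ShortExact ∧ S.X₁ = b ∧ S.X₂ = N ∧ S.X₃ = p)
    (hXP : X P) (hXN : ¬ X N) (n : ℕ) : ¬ IsFoldTorsionFree n X := by
  rintro ⟨F, hF0, hFn, hF⟩
  have hle : ∀ j, j ≤ n → F n ≤ F (n - j) := by
    intro j
    induction j with
    | zero => intro _; exact le_of_eq (by simp)
    | succ j ih =>
      intro hj
      have h1 := (hF (n - (j + 1)) (by omega)).le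
      have h2 : n - (j + 1) + 1 = n - j := by omega
      rw [h2] at h1
      exact le_trans (ih (by omega)) h1
  have hP : ∀ i ≤ n, F i P := by
    intro i hi
    have h1 := hle (n - i) (by omega)
    have h2 : n - (n - i) = i := by omega
    rw [h2] at h1
    apply h1
    rw [hFn]
    exact hXP
  obtain ⟨S₁, s1, s11, s12, s13⟩ := h1
  obtain ⟨S₂, s2, s21, s22, s23⟩ := h2
  obtain ⟨S₃, s3, s31, s32, s33⟩ := h3
  have key : ∀ i ≤ n, F i N ∧ F i p ∧ F i b := by
    intro i
    induction i with
    | zero =>
      intro _
      rw [hF0]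
      exact ⟨trivial, trivial, trivial⟩
    | succ i ih =>
      intro hi
      obtain ⟨hN, hp, hb⟩ := ih (by omega)
      have hi' := hF i (by omega)
      have h1 : F (i + 1) N := by
        have := hi'.sub S₁ s1 (by rwa [s11]) (by rw [s12]; exact hP i (by omega))
          (by rwa [s13]) (by rw [s12]; exact hP (i + 1) hi)
        rwa [s11] at this
      refine ⟨h1, ?_, ?_⟩
      · have := hi'.sub S₂ s2 (by rwa [s21]) (by rwa [s22]) (by rwa [s23]) (by rwa [s22])
        rwa [s21] at this
      · have := hi'.sub S₃ s3 (by rwa [s31]) (by rwa [s32]) (by rwa [s33]) (by rwa [s32])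
        rwa [s31] at this
  have h1 := (key n le_rfl).1
  rw [hFn] at h1
  exact hXN h1

end Transfer

instance fgAdditive (S : Type u) [Ring S] :
    (forget₂ (FGModuleCat.{u} S) (ModuleCat.{u} S)).Additive where
  map_add := rfl

variable {k : Type u} [Field k]

instance noeth : IsNoetherianRing (R k) :=
  isNoetherian_of_tower k (inferInstance : IsNoetherian k (R k))

/-- the dimension of the algebra -/
theorem finrank_R : Module.finrank k (R k) = 4 := by
  let φ : R k →ₗ[k] (Fin 4 → k) :=
    { toFun := fun M => ![M.1 0 0, M.1 1 0, M.1 2 0, M.1 2 2]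
      map_add' := by
        intro M M'
        ext i
        fin_cases i <;> rfl
      map_smul' := by
        intro c M
        ext i
        fin_cases i <;> rfl }
  have hinj : Function.Injective φ := by
    rintro ⟨M, h1, h2, h3, h4, h5⟩ ⟨M', g1, g2, g3, g4, g5⟩ h
    have a0 : M 0 0 = M' 0 0 := congrFun h 0
    have a1 : M 1 0 = M' 1 0 := congrFun h 1
    have a2 : M 2 0 = M' 2 0 := congrFun h 2
    have a3 : M 2 2 = M' 2 2 := congrFun h 3
    apply Subtype.ext
    ext i j
    fin_cases i <;> fin_cases j
    · exact a0
    · exact h2.trans g2.symm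
    · exact h3.trans g3.symm
    · exact a1
    · exact (h1.symm.trans a0).trans g1
    · exact h4.trans g4.symm
    · exact a2
    · exact h5.trans g5.symm
    · exact a3
  have hsurj : Function.Surjective φ := by
    intro x
    refine ⟨⟨!![x 0, 0, 0; x 1, x 0, 0; x 2, 0, x 3], by simp [R, ← SetLike.mem_coe]⟩, ?_⟩
    ext i
    fin_cases i <;> rfl
  rw [(LinearEquiv.ofBijective φ ⟨hinj, hsurj⟩).finrank_eq, Module.finrank_fin_fun]

/-- the column module is generated by its first basis vector -/
instance finP : Module.Finite (R k) (P k) := by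
  refine Module.Finite.of_surjective (LinearMap.toSpanSingleton (R k) (P k) (vec 1 0 0)) ?_
  intro x
  refine ⟨⟨!![x 0, 0, 0; x 1, x 0, 0; x 2, 0, 0], by simp [R, ← SetLike.mem_coe]⟩, ?_⟩
  rw [LinearMap.toSpanSingleton_apply]
  apply P_ext
  · rw [smul_zero_coord]; simp
  · rw [smul_one_coord]; simp
  · rw [smul_two_coord]; simp

instance noethP : IsNoetherian (R k) (P k) := isNoetherian_of_isNoetherianRing_of_finite _ _

instance finN : Module.Finite (R k) (N (k := k)) := Module.Finite.iff_fg.2 (IsNoetherian.noetherian _)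
instance finp : Module.Finite (R k) (p (k := k)) := Module.Finite.iff_fg.2 (IsNoetherian.noetherian _)
instance finb : Module.Finite (R k) (b (k := k)) := Module.Finite.iff_fg.2 (IsNoetherian.noetherian _)

/-- short exact sequences of finitely generated modules from linear maps -/
theorem fg_shortExact {S : Type u} [Ring S] [IsNoetherianRing S] {K L M : Type u}
    [AddCommGroup K] [Module S K] [Module.Finite S K] [AddCommGroup L] [Module S L]
    [Module.Finite S L] [AddCommGroup M] [Module S M] [Module.Finite S M] (i : K →ₗ[S] L)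
    (g : L →ₗ[S] M) (hi : Function.Injective i) (hg : Function.Surjective g)
    (h : Function.Exact i g) :
    ∃ T : ShortComplex (FGModuleCat.{u} S), T.ShortExact ∧ T.X₁ = FGModuleCat.of S K ∧
      T.X₂ = FGModuleCat.of S L ∧ T.X₃ = FGModuleCat.of S M := by
  have hz : FGModuleCat.ofHom i ≫ FGModuleCat.ofHom g = 0 := by
    apply FGModuleCat.hom_ext
    ext x
    exact h.apply_apply_eq_zero x
  refine ⟨ShortComplex.mk (FGModuleCat.ofHom i) (FGModuleCat.ofHom g) hz, ?_, rfl, rfl, rfl⟩
  exact shortExact_of_map (forget₂ (FGModuleCat.{u} S) (ModuleCat.{u} S)) (shortExact_mk i g hi hg h)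

variable (k) in
/-- the class `X` inside the finitely generated modules -/
def XF : ObjectProperty (FGModuleCat.{u} (R k)) :=
  (X k).inverseImage (forget₂ (FGModuleCat.{u} (R k)) (ModuleCat.{u} (R k)))

theorem X_closed {m : ℕ} (hm : 2 ≤ m) : IsKEClosed m (X k) := by
  refine ⟨X_iso, X_ext, ?_⟩
  intro Y d hmono hex hX
  obtain ⟨w0, h0⟩ := hex 0 (by omega)
  obtain ⟨w1, h1⟩ := hex 1 (by omega)
  exact cond_kernel (d 0).hom (d 1).hom (d 2).hom
    ((ModuleCat.mono_iff_injective _).1 hmono)
    ((ShortComplex.ShortExact.moduleCat_exact_iff_function_exact _).1 h0)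
    ((ShortComplex.ShortExact.moduleCat_exact_iff_function_exact _).1 h1)
    (hX 0 (by omega)) (hX 1 (by omega)) (hX 2 (by omega))

/-- (1) For every field `k` there are a `k`-algebra `Λ` of dimension four and a subcategory `X` of
the abelian category of finitely generated `Λ`-modules that is closed under extensions and under
`m`-kernels for all `m ≥ 2`, but is not an `n`-fold torsion-free class for any `n`. (2) Inverse
images under exact additive functors of subcategories closed under extensions and `m`-kernels are
closed under extensions and `m`-kernels. -/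
theorem result (k : Type u) [Field k] :
    (∃ (Λ : Type u) (_ : Ring Λ) (_ : Algebra k Λ) (_ : FiniteDimensional k Λ)
      (_ : IsNoetherianRing Λ) (X : ObjectProperty (FGModuleCat.{u} Λ)),
      Module.finrank k Λ = 4 ∧ (∀ m : ℕ, 2 ≤ m → IsKEClosed m X) ∧ ∀ n : ℕ, ¬ IsFoldTorsionFree n X) ∧
    (∀ (A : Type u) [Category.{v} A] [Abelian A] (B : Type u') [Category.{v'} B] [Abelian B]
      (F : A ⥤ B) [F.Additive] [PreservesFiniteLimits F] [PreservesFiniteColimits F]
      (m : ℕ) (X : ObjectProperty B), IsKEClosed m X → IsKEClosed m (X.inverseImage F)) := by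
  refine ⟨⟨R k, inferInstance, inferInstance, inferInstance, noeth, XF k,
    finrank_R, ?_, ?_⟩, ?_⟩
  · intro m hm
    exact pull _ (X_closed hm)
  · intro n
    refine not_fold (N := FGModuleCat.of (R k) (N (k := k))) (P := FGModuleCat.of (R k) (P k))
      (p := FGModuleCat.of (R k) (p (k := k))) (b := FGModuleCat.of (R k) (b (k := k)))
      ?_ ?_ ?_ ?_ ?_ n
    · exact fg_shortExact (N (k := k)).subtype (Pp (k := k)) (Submodule.injective_subtype _)
        surj_Pp exact_P
    · exact fg_shortExact (Submodule.inclusion (p_le_N (k := k))) (Nb (k := k))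
        (Submodule.inclusion_injective _) surj_Nb exact_p
    · exact fg_shortExact (Submodule.inclusion (b_le_N (k := k))) (Np (k := k))
        (Submodule.inclusion_injective _) surj_Np exact_b
    · exact cond_P
    · exact not_cond_N
  · intro A _ _ B _ _ F _ _ _ m X hX
    exact pull F hX

end Pool.Agent.Results.MP_8e2405_al.FiniteLength
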